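import Mathlib
import Pool.Agent.W205.K5.Stm

set_option autoImplicit false

namespace Pool.Agent.W24.K5

open Finset Pool.Agent.W205.K5 Pool.Agent.W593.IR Filter Topology

theorem two (hS : S_SYS) : ∀ k : ℕ, 2 ≤ k → PURE k → TWO k := by
  intro k hk hP a b q hTD ρ h0 h1 hρ
  rcases hS k hk a b q hTD with hsys | ⟨hw0, hw1⟩
  · have h := hP _ _ hsys ρ h0 h1 hρ
    refine h.trans (le_of_eq ?_)
    unfold Th
    apply sum_congr rfl
    intro j hj
    rw [mem_range] at hj
    have h2 : k - (k - j) = j := by omega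
    simp only [h2]
  · unfold Th
    rw [sum_range_succ, hw0, mul_zero, add_zero]
    have h2 : ∑ j ∈ range k, (k.choose j : ℝ) * (1 - ρ) ^ (k - j) * ρ ^ j * Wn a b q j =
        ∑ j ∈ range k, ρ ^ j * (1 - ρ) ^ (k - j) * (k.choose j : ℝ) := by
      apply sum_congr rfl
      intro j hj
      rw [mem_range] at hj
      rw [hw1 j hj]; ring
    rw [h2]
    have h3 := add_pow ρ (1 - ρ) k
    rw [show ρ + (1 - ρ) = 1 by ring, one_pow, sum_range_succ, Nat.sub_self, pow_zero, mul_one, Nat.choose_self,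
      Nat.cast_one, mul_one] at h3
    linarith

theorem all (hC : S_CRS) (hR : S_ROOT) (hL : S_LW) : ∀ k : ℕ, 2 ≤ k → IID k → ALL k := by
  intro k hk hI V _ _ y hy hsum ρ hρ0 hρ1
  have hn : (0:ℝ) < (Fintype.card V : ℝ) := by exact_mod_cast Fintype.card_pos
  obtain ⟨ρc, c0, c1, hc⟩ := hR k hk
  have h := hI V y hy hsum ρc c0 c1 hc
  refine hC k (fun j => (NL y j : ℝ) / (Fintype.card V : ℝ) ^ j) ρc hk ?_ ?_ ?_ c0 c1 hc h ρ hρ0 hρ1
  · have h0 : NL y 0 = 1 := by
      unfold NL
      have : {f : Fin 0 → V | ∑ i, y (f i) < 1} = Set.univ := by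
        ext f
        simp
      rw [this, Set.ncard_univ, Nat.card_unique]
    rw [h0]; simp
  · intro j
    refine ⟨by positivity, ?_⟩
    rw [div_le_one (by positivity)]
    have h1 : NL y j ≤ Fintype.card V ^ j := by
      unfold NL
      calc {f : Fin j → V | ∑ i, y (f i) < 1}.ncard ≤ (Set.univ : Set (Fin j → V)).ncard :=
            Set.ncard_le_ncard (Set.subset_univ _) (Set.toFinite _)
        _ = Fintype.card V ^ j := by
            rw [Set.ncard_univ, Nat.card_eq_fintype_card]
            simp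
    exact_mod_cast h1
  · intro j hj _
    have h1 := hL V y hy j hj
    have h2 : ((NL y (j + 1) : ℝ)) ^ j ≤ (NL y j : ℝ) ^ (j + 1) := by exact_mod_cast h1
    rw [div_pow, div_pow, ← pow_mul, ← pow_mul, mul_comm (j + 1) j]
    exact div_le_div_of_nonneg_right h2 (by positivity)

end Pool.Agent.W24.K5
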